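import Pool.Graph.R_seed8.R596.FcNmt

/-!
# A compact product of compact metrizable spaces with a point that is not a G-delta

In the model of the library module `Pool.Graph.R_seed8.R596.FcNmt` every countable product of
compact metrizable spaces is compact, and some such product has a point which is not the
intersection of any sequence of open sets. In particular this product is not first countable.
-/

set_option autoImplicit false

namespace Pool.Agent.Results.MP_f0e779_lc.PointNotGDelta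

open Pool.Agent.W868 Pool.Agent.W868.PName Pool.Agent.R596.SY Pool.Agent.R596Fc Pool.Agent.R596.FC
open ZFSet (pair)

theorem not_gdelta {π : Pkg Cd} (hb : base ⊆ π.N) (hb2 : base2 ⊆ π.N) (hcl : sy.Cld π) :
    ∃ X τ P T, IsFamily (sy.Ms π) X τ ∧ IsProdTop (sy.Ms π) X τ P T ∧ ∃ p ∈ P,
      ∀ W : ℕ → ZFSet.{0}, seq W ∈ sy.Ms π → (∀ n, W n ∈ T ∧ p ∈ W n) →
        ∃ q ∈ P, q ≠ p ∧ ∀ n, q ∈ W n := by
  have hM := zf_Ms hcl
  have hB := hM.base
  have hL := hat_Ms (Z_Lam hb)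
  obtain ⟨X, τ, hF, hX, hτ⟩ := exists_family hb hb2 hcl
  obtain ⟨P, T, hPT⟩ := exists_prodTop hM hF.set_mem hF.top_mem
  have hP := hPT.prod.1
  have hsO := seqOm_Ms hb hb2
  set c : ℕ → ZFSet.{0} := fun n => π.hat (Om n) with hc
  have hcP : seq c ∈ P := (mem_P hPT).2 ⟨hsO, fun n => by
    rw [hX]
    exact ZFSet.mem_insert _ _⟩
  have hoX : ∀ i, π.hat (Om i) ⊆ X i := fun i x hx => by
    rw [hX]
    exact ZFSet.mem_insert_iff.2 (Or.inr hx)
  have ho : ∀ n, π.hat (Om n) ∈ sy.Ms π := fun n => hat_Ms (Z_Om hb n)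
  refine ⟨X, τ, P, T, hF, hPT, seq c, hcP, fun W hWM hW => ?_⟩
  by_contra hcon
  push Not at hcon
  -- finiteness
  have hfin0 : ∀ i n : ℕ, {a | a ∈ π.hat (Om i) ∧
      ptf (seq c) (nat i) a ∉ W n}.Finite := fun i n =>
    finite_out hM hF hPT hcP (ho i) (hoX i) (fun V hV h1 => ((hτ i V).1 hV).2.2 h1)
      (hW n).1 (hW n).2
  let U : ZFSet.{0} → ZFSet.{0} := fun n => ZFSet.sep (fun a => ∃ i ∈ n, ∃ m ∈ n,
    a ∈ ap (seq c) i ∧ ¬ ptf (seq c) i a ∈ ap (seq W) m) (π.hat Lam)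
  have dU : DfnF (sy.Ms π) (sy.Ms π) fun w : Fin 1 → ZFSet.{0} => U (w 0) := by
    refine hM.sep' (Q := fun a v => ∃ i ∈ v 0, ∃ m ∈ v 0, a ∈ ap (seq c) i ∧
      ¬ ptf (seq c) i a ∈ ap (seq W) m) (DfnF.const hL) ?_
    refine hB.bex (DfnF.proj 1) (hB.bex (DfnF.proj 2) (Dfn.and ?_ (Dfn.not ?_)))
    · exact Dfn.mem (DfnF.proj 2) (hM.ap' (DfnF.const hsO) (DfnF.proj 1))
    · exact Dfn.mem (dfn_ptf hM hsO (DfnF.proj 1) (DfnF.proj 2))
        (hM.ap' (DfnF.const hWM) (DfnF.proj 0))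
  have h1 := ctb_union hM hL (π.hat_isOrdinal (ZFSet.isOrdinal_toZFSet _)) dU
    (fun n _ x hx => (ZFSet.mem_sep.1 hx).1) (by
      intro n' hn'
      obtain ⟨n, rfl⟩ := mem_omega_iff.1 hn'
      refine (Set.Finite.biUnion (Set.finite_Iio n) fun i _ =>
        Set.Finite.biUnion (Set.finite_Iio n) fun m _ => hfin0 i m).subset ?_
      intro a ha
      obtain ⟨-, i', hi', m', hm', h2, h3⟩ := ZFSet.mem_sep.1 ha
      obtain ⟨i, hi, rfl⟩ := mem_nat.1 hi'
      obtain ⟨m, hm, rfl⟩ := mem_nat.1 hm'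
      rw [ap_seq] at h2 h3
      exact Set.mem_biUnion (Set.mem_Iio.2 hi) (Set.mem_biUnion (Set.mem_Iio.2 hm) ⟨h2, h3⟩))
  have h2 : ZFSet.sep (fun β => ∃ n ∈ ZFSet.omega, β ∈ U n) (π.hat Lam) = π.hat Lam := by
    ext a
    rw [ZFSet.mem_sep]
    refine ⟨fun h => h.1, fun ha => ⟨ha, ?_⟩⟩
    obtain ⟨i, hi⟩ := hat_Lam_sub hb ha
    have hp := ptf_mem hM hF hPT hcP (hoX i hi)
    have hne : ptf (seq c) (nat i) a ≠ seq c := by
      rw [ptf_seq]
      intro h3
      have h4 := congrFun (seq_inj h3) i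
      rw [if_pos rfl] at h4
      change a = π.hat (Om i) at h4
      rw [← h4] at hi
      exact ZFSet.mem_irrefl _ hi
    obtain ⟨m, hm⟩ := hcon _ hp hne
    refine ⟨nat (max (m + 1) (i + 1)), nat_mem_omega _, ZFSet.mem_sep.2 ⟨ha, nat i,
      nat_mem_nat (lt_of_lt_of_le (Nat.lt_succ_self i) (le_max_right _ _)), nat m,
      nat_mem_nat (lt_of_lt_of_le (Nat.lt_succ_self m) (le_max_left _ _)), ?_, ?_⟩⟩
    · rw [ap_seq]
      exact hi
    · rw [ap_seq]
      exact hm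
  rw [h2] at h1
  exact not_ctb hb hcl h1

/-- There is a countable transitive model `M` of ZF in which every countable product of compact
metrizable spaces is compact, but for some sequence of compact metrizable spaces `(X n, τ n)` with
product `(P, T)` there is a point `p` of `P` which is not a `G_δ` set: for every sequence `W` in
`M` of open sets containing `p` some point `q ≠ p` of `P` is in all the sets `W n`. In particular
`P` is not first countable and not metrizable. -/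
theorem result : ∃ M : Set ZFSet.{0}, M.Countable ∧ IsZF M ∧ CPMCC M ∧ ¬ CPMCM M ∧
    ∃ X τ P T, IsFamily M X τ ∧ IsProdTop M X τ P T ∧ ∃ p ∈ P,
      ∀ W : ℕ → ZFSet.{0}, seq W ∈ M → (∀ n, W n ∈ T ∧ p ∈ W n) →
        ∃ q ∈ P, q ≠ p ∧ ∀ n, q ∈ W n := by
  obtain ⟨π, hb, hg, hcl, hb2⟩ := exists_gd3
  exact ⟨sy.Ms π, π.countable_W.mono fun x hx => Ms_W hx, zf_Ms hcl, cpmcc_Ms hg hcl,
    not_cpmcm hb hb2 hcl, not_gdelta hb hb2 hcl⟩

end Pool.Agent.Results.MP_f0e779_lc.PointNotGDelta
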